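import Pool.Agent.Helper21.AU.Subs

/-!
# AU, block U2b: the operations of the tree and the germs of subspaces
-/

set_option autoImplicit false

namespace Pool.Agent.SQ

open Filter Module

private theorem ut_eq_z27 {k' : Type*} [Field k'] {n q : ℕ} (l : Fin q → Fin (n + 1) → k')
    (N : Submodule k' (Fin (n + 1) → k')) (i : Fin q) :
    Ut l N i = mtz l N (open Classical in Finset.univ.filter fun J => (∀ j ∈ J, j < i) ∧ l i ∈ spJ l N J) := by
  classical
  unfold Ut mtz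
  simp

private theorem range_z27 {k' : Type*} {n q : ℕ} (l : Fin q → Fin (n + 1) → k') (J : Finset (Fin q)) :
    (Set.range fun i : J => l i) = l '' (J : Set (Fin q)) := by
  ext x
  constructor
  · rintro ⟨i, rfl⟩
    exact ⟨i, i.2, rfl⟩
  · rintro ⟨i, hi, rfl⟩
    exact ⟨⟨i, hi⟩, rfl⟩

section

variable {k Λ : Type*} [Field k] [Field Λ] {U : Ultrafilter ℕ} (T : Trz k Λ U) {n q : ℕ}

variable (l : Fin q → Fin (n + 1) → Λ) (lr : ℕ → Fin q → Fin (n + 1) → k)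
  (hlr : ∀ i j, ∀ᶠ a in (U : Filter ℕ), T.rp (l i j) a = lr a i j)

include hlr

theorem gm_spJ (E : Submodule Λ (Fin (n + 1) → Λ)) (J : Finset (Fin q)) :
    ∀ᶠ a in (U : Filter ℕ), Gm T (spJ l E J) a = spJ (lr a) (Gm T E a) J := by
  have h1 := gm_span T (fun i : J => l i) (fun a (i : J) => lr a i) fun i j => hlr i j
  rw [range_z27] at h1
  filter_upwards [h1, gm_sup T E (Submodule.span Λ (l '' (J : Set (Fin q))))] with a h2 h3
  rw [spJ, spJ, h3, h2, range_z27]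

theorem gm_mtz (E : Submodule Λ (Fin (n + 1) → Λ)) (𝒥 : Finset (Finset (Fin q))) :
    ∀ᶠ a in (U : Filter ℕ), Gm T (mtz l E 𝒥) a = mtz (lr a) (Gm T E a) 𝒥 := by
  have h1 : ∀ᶠ a in (U : Filter ℕ), ∀ J, Gm T (spJ l E J) a = spJ (lr a) (Gm T E a) J :=
    eventually_all.2 fun J => gm_spJ T l lr hlr E J
  filter_upwards [h1, gm_iInf T 𝒥 fun J => spJ l E J] with a h2 h3
  rw [mtz, mtz, h3]
  simp only [h2]

theorem gm_vez (E V : Submodule Λ (Fin (n + 1) → Λ)) :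
    ∀ᶠ a in (U : Filter ℕ), vez (lr a) (Gm T E a) (Gm T V a) = vez l E V := by
  have h1 : ∀ᶠ a in (U : Filter ℕ), ∀ J, Gm T (spJ l E J) a = spJ (lr a) (Gm T E a) J :=
    eventually_all.2 fun J => gm_spJ T l lr hlr E J
  have h2 : ∀ᶠ a in (U : Filter ℕ), ∀ J, Gm T (V ⊓ spJ l E J) a = Gm T V a ⊓ Gm T (spJ l E J) a :=
    eventually_all.2 fun J => gm_inf T V (spJ l E J)
  have h3 : ∀ᶠ a in (U : Filter ℕ), ∀ J, finrank k (Gm T (V ⊓ spJ l E J) a) = finrank Λ ↥(V ⊓ spJ l E J) :=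
    eventually_all.2 fun J => gm_finrank T (V ⊓ spJ l E J)
  filter_upwards [h1, h2, h3, gm_finrank T V] with a h4 h5 h6 h7
  refine Prod.ext h7 ?_
  funext J
  show finrank k ↥(Gm T V a ⊓ spJ (lr a) (Gm T E a) J) = finrank Λ ↥(V ⊓ spJ l E J)
  rw [← h4, ← h5, h6]

/-- membership of the forms -/
private theorem memJ_z27 (E : Submodule Λ (Fin (n + 1) → Λ)) (i : Fin q) :
    ∀ᶠ a in (U : Filter ℕ), (lr a i ∈ Gm T E a ↔ l i ∈ E) := by
  have h1 := gm_mem T E (l i) (fun a => lr a i) (hlr i)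
  by_cases h : l i ∈ E
  · filter_upwards [h1.1 h] with a h2
    exact iff_of_true h2 h
  · have h2 : ∀ᶠ a in (U : Filter ℕ), lr a i ∉ Gm T E a := by
      rw [Ultrafilter.eventually_not]
      exact fun h3 => h (h1.2 h3)
    filter_upwards [h2] with a h3
    exact iff_of_false h3 h

private theorem cost_z27 (E : Submodule Λ (Fin (n + 1) → Λ)) :
    ∀ᶠ a in (U : Filter ℕ), ∀ i, cost (lr a) (Gm T E a) i = cost l E i := by
  classical
  refine eventually_all.2 fun i => ?_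
  have h1 : ∀ᶠ a in (U : Filter ℕ), ∀ J, Gm T (spJ l E J) a = spJ (lr a) (Gm T E a) J :=
    eventually_all.2 fun J => gm_spJ T l lr hlr E J
  have h2 : ∀ᶠ a in (U : Filter ℕ), ∀ J, (lr a i ∈ Gm T (spJ l E J) a ↔ l i ∈ spJ l E J) :=
    eventually_all.2 fun J => memJ_z27 T l lr hlr (spJ l E J) i
  set 𝒥 : Finset (Finset (Fin q)) := Finset.univ.filter fun J => (∀ j ∈ J, j < i) ∧ l i ∈ spJ l E J with h𝒥
  filter_upwards [h1, h2, gm_mtz T l lr hlr E 𝒥, gm_finrank T (mtz l E 𝒥)] with a h3 h4 h5 h6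
  have h7 : (Finset.univ.filter fun J => (∀ j ∈ J, j < i) ∧ lr a i ∈ spJ (lr a) (Gm T E a) J) = 𝒥 := by
    rw [h𝒥]
    refine Finset.filter_congr fun J _ => ?_
    rw [← h3 J, h4 J]
  unfold cost
  rw [ut_eq_z27, ut_eq_z27]
  have h8 : finrank k ↥(mtz (lr a) (Gm T E a) 𝒥) = finrank Λ ↥(mtz l E 𝒥) := by
    rw [← h5, h6]
  congr 1
  convert h8

theorem gm_bad (E : Submodule Λ (Fin (n + 1) → Λ)) : Bad l E ↔ ∀ᶠ a in (U : Filter ℕ), Bad (lr a) (Gm T E a) := by
  have h1 : ∀ᶠ a in (U : Filter ℕ), ∀ i, (lr a i ∈ Gm T E a ↔ l i ∈ E) :=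
    eventually_all.2 fun i => memJ_z27 T l lr hlr E i
  have h2 : ∀ᶠ a in (U : Filter ℕ), (Bad (lr a) (Gm T E a) ↔ Bad l E) := by
    filter_upwards [h1, cost_z27 T l lr hlr E, gm_finrank T E] with a h3 h4 h5
    unfold Bad
    simp only [h3, h4, h5]
  constructor
  · intro h
    filter_upwards [h2] with a h3
    exact h3.2 h
  · intro h
    obtain ⟨a, h3, h4⟩ := (h.and h2).exists
    exact h4.1 h3

theorem gm_gen (h : ∀ᶠ a in (U : Filter ℕ), GenPos (lr a)) : GenPos l := by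
  intro I hI
  rw [linearIndependent_iff_card_eq_finrank_span]
  have h1 := gm_span T (fun i : I => l i) (fun a (i : I) => lr a i) fun i j => hlr i j
  obtain ⟨a, h2, h3, h4⟩ := (h.and (h1.and (gm_finrank T (Submodule.span Λ (Set.range fun i : I => l i))))).exists
  have h5 := linearIndependent_iff_card_eq_finrank_span.1 (h2 I hI)
  rw [h5]
  unfold Set.finrank
  rw [← h3, h4]

end

end Pool.Agent.SQ
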